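import Mathlib
import Pool.Agent.H69R3.Defs
import Pool.Agent.U19.TX.Core

/-!
# Tychonoff cubes in t-extral spaces
-/

set_option autoImplicit false

open Set Topology unitInterval

universe u w

namespace Pool.Agent.Results.MP_a58584_gt.TychonoffCube

open Pool.Agent.H69R3

/-- `X` is homeomorphic to a t-embedded subspace `A` of a continuous image `D` of a Tychonoff
cube `[0,1]^J`. -/
def TCubic (X : Type u) [TopologicalSpace X] : Prop :=
  ∃ (J D : Type u) (_ : TopologicalSpace D) (q : (J → I) → D) (A : Set D),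
    Continuous q ∧ Function.Surjective q ∧ Nonempty (X ≃ₜ A) ∧ TEmbedded A

/-- Let the Tychonoff space `X` be t-extral, or compact and homeomorphic to a t-embedded subspace of
a continuous image of a Tychonoff cube. If `X` is not metrizable, then `[0,1]^ω₁` embeds in `X`. -/
theorem result (X : Type u) [TopologicalSpace X] [T35Space X]
    (hX : TExtral X ∨ (CompactSpace X ∧ TCubic X))
    (hm : ¬ TopologicalSpace.MetrizableSpace X) (Ω : Type w)
    (hΩ : Cardinal.mk Ω = Cardinal.aleph 1) : ∃ h : (Ω → I) → X, IsEmbedding h := by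
  have key : ∃ (Ω' : Type u) (k : (Ω' → I) → X), Cardinal.mk Ω' = Cardinal.aleph 1 ∧
      IsEmbedding k := by
    rcases hX with h | ⟨hc, J, D, _, q, A, hq, hqs, ⟨H⟩, hA⟩
    · exact Pool.Agent.U19.TX.of_extral h hm
    · exact Pool.Agent.U19.TX.of_image hq hqs H hA hm
  obtain ⟨Ω', k, hΩ', hk⟩ := key
  have h1 : Cardinal.lift.{w} (Cardinal.mk Ω') = Cardinal.lift.{u} (Cardinal.mk Ω) := by
    rw [hΩ, hΩ', Cardinal.lift_aleph, Cardinal.lift_aleph]
    simp
  obtain ⟨e⟩ := Cardinal.lift_mk_eq'.1 h1
  refine ⟨fun d => k fun ω => d (e ω), ?_⟩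
  have hc : Continuous fun d : Ω → I => k fun ω => d (e ω) :=
    hk.continuous.comp (continuous_pi fun ω => continuous_apply _)
  refine (hc.isClosedEmbedding fun d d' h => ?_).isEmbedding
  have h2 := hk.injective h
  funext ω
  have h3 := congrFun h2 (e.symm ω)
  simpa using h3

end Pool.Agent.Results.MP_a58584_gt.TychonoffCube
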